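import Pool.Agent.H110R3.Urn.Stmts

/-!
# Small steps and limit points in a finite set
-/

namespace Pool.Agent.H630R3.Urn

open Filter Topology
open Pool.Agent.H110R3.Urn

theorem conv_of_compact {α : Type*} [MetricSpace α] (K : Set α) (g : α → ℝ) (x : ℕ → α)
    (hK : IsCompact K) (hg : ContinuousOn g K) (hZ : {y ∈ K | g y = 0}.Finite)
    (hx : ∀ᶠ n in atTop, x n ∈ K) (h0 : Tendsto (fun n => g (x n)) atTop (𝓝 0))
    (hd : Tendsto (fun n => dist (x (n + 1)) (x n)) atTop (𝓝 0)) :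
    ∃ y ∈ K, g y = 0 ∧ Tendsto x atTop (𝓝 y) := by
  have hzero : ∀ a ∈ K, ∀ φ : ℕ → ℕ, StrictMono φ → Tendsto (x ∘ φ) atTop (𝓝 a) → g a = 0 := by
    intro a ha φ hφ hlim
    have h1 : Tendsto (fun n => g (x (φ n))) atTop (𝓝 0) := h0.comp hφ.tendsto_atTop
    have h2 : Tendsto (x ∘ φ) atTop (𝓝[K] a) :=
      tendsto_nhdsWithin_iff.2 ⟨hlim, hφ.tendsto_atTop.eventually hx⟩
    have h3 : Tendsto (fun n => g (x (φ n))) atTop (𝓝 (g a)) := (hg a ha).tendsto.comp h2
    exact tendsto_nhds_unique h3 h1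
  obtain ⟨y, hyK, φ, hφ, hlim⟩ := hK.tendsto_subseq' hx.frequently
  have hy0 := hzero y hyK φ hφ hlim
  refine ⟨y, hyK, hy0, ?_⟩
  have hopen : ∀ O : Set α, IsOpen O → {y ∈ K | g y = 0} ⊆ O → ∀ᶠ n in atTop, x n ∈ O := by
    intro O hO hZO
    by_contra hcon
    rw [not_eventually] at hcon
    have hfr : ∃ᶠ n in atTop, x n ∈ K \ O :=
      (hcon.and_eventually hx).mono fun n hn => ⟨hn.2, hn.1⟩
    obtain ⟨a, ha, ψ, hψ, hlim'⟩ := (hK.diff hO).tendsto_subseq' hfr
    exact ha.2 (hZO ⟨ha.1, hzero a ha.1 ψ hψ hlim'⟩)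
  rw [Metric.tendsto_atTop]
  intro ε hε
  obtain ⟨δ, hδ, hball⟩ : ∃ δ > 0, ∀ z ∈ K, g z = 0 → z ≠ y → δ ≤ dist z y := by
    have hcl : IsClosed ({y ∈ K | g y = 0} \ {y}) := (hZ.subset Set.sdiff_subset).isClosed
    have hmem : y ∈ ({y ∈ K | g y = 0} \ {y})ᶜ := fun h => h.2 rfl
    obtain ⟨δ, hδ, hb⟩ := Metric.isOpen_iff.1 hcl.isOpen_compl y hmem
    refine ⟨δ, hδ, fun z hz hz0 hzy => ?_⟩
    by_contra hlt
    rw [not_le] at hlt
    exact hb (Metric.mem_ball.2 hlt) ⟨⟨hz, hz0⟩, hzy⟩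
  set r := min ε (δ / 3) with hr
  have hrpos : 0 < r := lt_min hε (by positivity)
  have hrε : r ≤ ε := min_le_left _ _
  have hrδ : 3 * r ≤ δ := by
    have := min_le_right ε (δ / 3)
    linarith
  have h1 := hopen (⋃ z ∈ {y ∈ K | g y = 0}, Metric.ball z r)
    (isOpen_biUnion fun z _ => Metric.isOpen_ball)
    (fun z hz => Set.mem_biUnion hz (Metric.mem_ball_self hrpos))
  have h2 : ∀ᶠ n in atTop, dist (x (n + 1)) (x n) < r := hd.eventually (gt_mem_nhds hrpos)
  obtain ⟨n1, hn1⟩ := eventually_atTop.1 (h1.and h2)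
  have h3 : ∀ᶠ k in atTop, dist (x (φ k)) y < r := by
    have := Metric.tendsto_nhds.1 hlim r hrpos
    exact this
  obtain ⟨k, hk1, hk2⟩ := (h3.and (hφ.tendsto_atTop.eventually (eventually_ge_atTop n1))).exists
  refine ⟨φ k, fun n hn => ?_⟩
  have hmain : ∀ n, φ k ≤ n → dist (x n) y < r := by
    intro n hn
    induction n, hn using Nat.le_induction with
    | base => exact hk1
    | succ n hn ih =>
      have h4 := (hn1 (n + 1) (by omega)).1
      obtain ⟨z, hz, hzb⟩ := Set.mem_iUnion₂.1 h4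
      rw [Metric.mem_ball] at hzb
      by_cases hzy : z = y
      · rw [← hzy]
        exact hzb
      · exfalso
        have h5 := hball z hz.1 hz.2 hzy
        have h6 := (hn1 n (by omega)).2
        have h7 : dist z y ≤ dist z (x (n + 1)) + dist (x (n + 1)) (x n) + dist (x n) y := by
          have := dist_triangle z (x (n + 1)) y
          have := dist_triangle (x (n + 1)) (x n) y
          linarith
        rw [dist_comm z (x (n + 1))] at h7
        linarith
  exact (hmain n hn).trans_le hrε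

theorem taskL4 : TaskL4 := by
  intro m K g x hK hg hZ hx h0 hd
  refine conv_of_compact K g x hK hg hZ hx h0 ?_
  have h1 : Tendsto (fun n => x (n + 1) - x n) atTop (𝓝 0) := by
    rw [tendsto_pi_nhds]
    intro i
    exact hd i
  have h2 := h1.norm
  rw [norm_zero] at h2
  exact h2.congr fun n => (dist_eq_norm _ _).symm

end Pool.Agent.H630R3.Urn
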